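import Pool.Agent.Q227.KN.D

/-!
# Representations attached to weight two eigenclasses: existence over all proper subextensions

The fields `F` between `K` and a finite Galois extension `L` of `K` are given by the subgroups
`U = Gal(K̄/F)` which contain `N = Gal(K̄/L)`.  `a v`, `b v` are the values of `θ` on `T_v`, `S_v`, for
`v` outside a finite set `S`.  The eigenvalues of the base change of `θ` to `F` at a place of `F` of
residue degree `f` over `v` are the `f`-th powers of the roots of `X ^ 2 - a v X + b v N(v)`.  The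
theorem determines the Galois groups of `L` over `K` such that existence over all `F ≠ K` contained in
`L` implies existence over `K`.
-/

set_option autoImplicit false

namespace Pool.Agent.Results.MP_976e2b_nt.AllSubextensions

open NumberField IsDedekindDomain Pool.Agent.W401.Cheb

variable {K : Type} [Field K] [NumberField K] {k : Type} [Field k]

/-- two-dimensional representations of the subgroup `U` -/
abbrev Rep (k : Type) [Field k] (U : Subgroup (GK K)) : Type := Representation k U (Fin 2 → k)

/-- two-dimensional representations of the absolute Galois group of `K` -/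
abbrev RepK (K : Type) [Field K] [NumberField K] (k : Type) [Field k] : Type :=
  Representation k (GK K) (Fin 2 → k)

/-- the norm of `v`, as an element of `k` -/
noncomputable def nrm (k : Type) [Field k] (v : HeightOneSpectrum (𝓞 K)) : k :=
  ((Ideal.absNorm v.asIdeal : ℕ) : k)

/-- the sum of the `f`-th powers of the roots of `X ^ 2 - a X + c` -/
def tpow (a c : k) : ℕ → k
  | 0 => 2
  | 1 => a
  | (f + 2) => a * tpow a c (f + 1) - c * tpow a c f

/-- `σ` acts on the residue field of a maximal ideal `Q` above `v` of the ring of all algebraic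
integers as `x ↦ x ^ (N(v) ^ f)` -/
def IsFrobPow (v : HeightOneSpectrum (𝓞 K)) (f : ℕ) (σ : GK K) : Prop :=
  ∃ Q : Ideal (𝓞 (AlgebraicClosure K)), Q.IsMaximal ∧
    Q.comap (algebraMap (𝓞 K) (𝓞 (AlgebraicClosure K))) = v.asIdeal ∧
    ∀ x : 𝓞 (AlgebraicClosure K), σ • x - x ^ (Ideal.absNorm v.asIdeal) ^ f ∈ Q

/-- `ρ` is attached to the base change of `θ` to `F`: it is unramified at the places of `F` above
the `v` outside `S`, and the trace and the determinant of Frobenius at such a place of residue degree
`f` are those of the `f`-th powers of the roots of `X ^ 2 - a v X + b v N(v)` -/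
def AttachedOver {U : Subgroup (GK K)} (ρ : Rep k U) (S : Set (HeightOneSpectrum (𝓞 K)))
    (a b : HeightOneSpectrum (𝓞 K) → k) : Prop :=
  ∀ v ∉ S, (∀ σ : U, IsInert v (σ : GK K) → ρ σ = 1) ∧ ∀ (f : ℕ) (σ : U), 0 < f →
    IsFrobPow v f (σ : GK K) → LinearMap.trace k _ (ρ σ) = tpow (a v) (b v * nrm k v) f ∧
      LinearMap.det (ρ σ) = (b v * nrm k v) ^ f

/-- at `v`, the representation `R` is attached to `θ`: it is unramified, and the characteristic
polynomial of Frobenius is `X ^ 2 - a v X + b v N(v)` -/
def AttachedAt (R : RepK K k) (v : HeightOneSpectrum (𝓞 K)) (a b : HeightOneSpectrum (𝓞 K) → k) :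
    Prop :=
  (∀ σ, IsInert v σ → R σ = 1) ∧ ∀ σ, IsFrob v σ →
    (R σ).charpoly = Polynomial.X ^ 2 - Polynomial.C (a v) * Polynomial.X +
      Polynomial.C (b v * nrm k v)

/-- `δ` is a continuous character with `δ(Frob_v) = b v N(v)` for all `v` outside `S` -/
def IsDeterminant [TopologicalSpace k] (δ : GK K →* kˣ) (S : Set (HeightOneSpectrum (𝓞 K)))
    (b : HeightOneSpectrum (𝓞 K) → k) : Prop :=
  (Continuous fun σ => (δ σ : k)) ∧ ∀ v ∉ S, ∀ σ, IsFrob v σ → (δ σ : k) = b v * nrm k v

/-- the restriction from `F` to `L` -/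
noncomputable def resTo {N U : Subgroup (GK K)} (h : N ≤ U) (ρ : Rep k U) : Rep k N :=
  MonoidHom.comp ρ (Subgroup.inclusion h)

/-- the restriction from `K` to `L` -/
noncomputable def resK (N : Subgroup (GK K)) (R : RepK K k) : Rep k N :=
  MonoidHom.comp R N.subtype

/-- `ρ` is a continuous representation over `F`, irreducible over `L` and attached to the base change
of `θ` -/
def Good [TopologicalSpace k] {N U : Subgroup (GK K)} (h : N ≤ U) (ρ : Rep k U)
    (S : Set (HeightOneSpectrum (𝓞 K))) (a b : HeightOneSpectrum (𝓞 K) → k) : Prop :=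
  (∀ x, Continuous fun σ => ρ σ x) ∧ (resTo h ρ).IsIrreducible ∧ AttachedOver ρ S a b

/-- there are such representations over all `F ≠ K` contained in `L` -/
def OverAll [TopologicalSpace k] (N : Subgroup (GK K))
    (S : Set (HeightOneSpectrum (𝓞 K))) (a b : HeightOneSpectrum (𝓞 K) → k) : Prop :=
  ∀ (U : Subgroup (GK K)) (hU : N ≤ U), U ≠ ⊤ → ∃ ρ : Rep k U, Good hU ρ S a b

/-- the restriction of `R` to `U = Gal(K̄/F)` is isomorphic to `ρ` -/
def RestrictsTo (R : RepK K k) {U : Subgroup (GK K)} (ρ : Rep k U) : Prop :=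
  Nonempty (Representation.Equiv (R.comp U.subtype : Rep k U) ρ)

/-- a property of representations of subgroups depends only on the isomorphism class -/
def Invariant (W : ∀ H : Subgroup (GK K), Rep k H → Prop) : Prop :=
  ∀ H r r', Nonempty (Representation.Equiv r r') → W H r → W H r'

/-- `ρ` has potentially the property `W` on `D`, a decomposition group: it holds on the
intersection of `D` and an open subgroup -/
def Potentially (W : ∀ H : Subgroup (GK K), Rep k H → Prop) (D : Subgroup (GK K))
    {U : Subgroup (GK K)} (ρ : Rep k U) : Prop :=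
  ∃ (V : Subgroup (GK K)) (hV : D ⊓ V ≤ U), IsOpen (V : Set (GK K)) ∧
    W (D ⊓ V) (ρ.comp (Subgroup.inclusion hV))

/-- the same for a representation over `K` -/
def PotentiallyK (W : ∀ H : Subgroup (GK K), Rep k H → Prop) (D : Subgroup (GK K))
    (R : RepK K k) : Prop :=
  ∃ V : Subgroup (GK K), IsOpen (V : Set (GK K)) ∧ W (D ⊓ V) (R.comp (D ⊓ V).subtype)

/-- the Galois group of `L` over `K` is a `2`-group generated by two elements -/
def TwoGenerated (N : Subgroup (GK K)) [N.Normal] : Prop :=
  IsPGroup 2 (GK K ⧸ N) ∧ ∃ x y : GK K ⧸ N, Subgroup.closure {x, y} = ⊤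

/-- only the scalars commute with the representation -/
def OnlyScalars {N : Subgroup (GK K)} (ρ : Rep k N) : Prop :=
  ∀ T : (Fin 2 → k) →ₗ[k] (Fin 2 → k), (∀ x, T ∘ₗ ρ x = ρ x ∘ₗ T) →
    ∃ c : k, T = c • LinearMap.id

/-- the traces with signs -/
def signed (e : HeightOneSpectrum (𝓞 K) → ℤˣ) (a : HeightOneSpectrum (𝓞 K) → k) :
    HeightOneSpectrum (𝓞 K) → k := fun v => ((e v : ℤ) : k) * a v

/-- `R` is a continuous representation over `K`, irreducible over `L` and attached to `θ` -/
def GoodK [TopologicalSpace k] (N : Subgroup (GK K)) (R : RepK K k)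
    (S : Set (HeightOneSpectrum (𝓞 K))) (a b : HeightOneSpectrum (𝓞 K) → k) : Prop :=
  (∀ x, Continuous fun σ => R σ x) ∧ (resK N R).IsIrreducible ∧ ∀ v ∉ S, AttachedAt R v a b

/-- `R` restricts to `ρ`, and has every property which `ρ` has potentially at a decomposition
group -/
def Inherits (R : RepK K k) {U : Subgroup (GK K)} (ρ : Rep k U) : Prop :=
  RestrictsTo R ρ ∧ ∀ W : (H : Subgroup (GK K)) → Rep k H → Prop, Invariant W →
    ∀ D : Subgroup (GK K), Potentially W D ρ → PotentiallyK W D R

/-- existence over all `F ≠ K` contained in `L` implies existence over `K` -/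
def Descends (N : Subgroup (GK K)) (k : Type) [Field k] [TopologicalSpace k] : Prop :=
  ∀ (S : Set (HeightOneSpectrum (𝓞 K))) (a b : HeightOneSpectrum (𝓞 K) → k) (δ : GK K →* kˣ),
    S.Finite → IsDeterminant δ S b → OverAll N S a b →
    ∃ R : RepK K k, GoodK N R S a b ∧ ∀ (U : Subgroup (GK K)) (hU : N ≤ U) (ρ : Rep k U),
      Good hU ρ S a b → Inherits R ρ

/-- every `R₀`, absolutely irreducible over `L` and attached to `a`, `b`, has a modification by signs
which exists over all `F ≠ K` contained in `L`, but not over `K` -/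
def Fails (N : Subgroup (GK K)) (k : Type) [Field k] [TopologicalSpace k] : Prop :=
  ∀ (S : Set (HeightOneSpectrum (𝓞 K))) (a b : HeightOneSpectrum (𝓞 K) → k) (R₀ : RepK K k),
    S.Finite → (∀ v ∉ S, ∀ τ, IsInert v τ → τ ∈ N) → GoodK N R₀ S a b → OnlyScalars (resK N R₀) →
    ∃ e : HeightOneSpectrum (𝓞 K) → ℤˣ, OverAll N S (signed e a) b ∧
      ¬ ∃ R : RepK K k, (∀ x, Continuous fun σ => R σ x) ∧ R.IsSemisimpleRepresentation ∧
        ∀ v ∉ S, AttachedAt R v (signed e a) b

/-- Let `L` be a finite Galois extension of `K` which is not cyclic.  **(1)** If its Galois group is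
not a `2`-group generated by two elements, then for algebraically closed coefficients `k`, and a
character `δ` of `Gal(K̄/K)` with `δ(Frob_v) = b v N(v)`, which class field theory attaches to the
central character of `θ`, existence over all fields `F ≠ K` contained in `L` implies existence over
`K`: if for all `F` there are representations attached to the base change of `θ` which are irreducible
over `L`, there is a representation `R` over `K` attached to `θ` which is irreducible over `L`; it
restricts to all representations over fields `F` as above, and has every property, such as weight two,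
which one of them has potentially at a decomposition group.  **(2)** If the Galois group is a
`2`-group generated by two elements, this is false for all coefficients: if `R₀` is attached to `a`,
`b` and absolutely irreducible over `L`, there are signs `e v` such that there are representations
over all `F ≠ K` contained in `L` which are attached to `e v * a v`, `b v` and irreducible over `L`,
but there is no semisimple representation over `K` attached to `e v * a v`, `b v`. -/
theorem result (K : Type) [Field K] [NumberField K] (N : Subgroup (GK K)) [N.Normal]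
    (hN : IsOpen (N : Set (GK K))) (hnc : ¬ IsCyclic (GK K ⧸ N)) :
    (¬ TwoGenerated N → ∀ (k : Type) [Field k] [CharZero k] [IsAlgClosed k]
      [TopologicalSpace k] [IsTopologicalRing k] [T2Space k], Descends N k) ∧
    (TwoGenerated N → ∀ (k : Type) [Field k] [CharZero k]
      [TopologicalSpace k] [IsTopologicalRing k] [T2Space k], Fails N k) := by
  have htp : ∀ (k : Type) [Field k] (x y : k) (f : ℕ), tpow x y f = Q227.KM.tpow x y f := by
    intro k _ x y f
    induction f using Nat.twoStepInduction with
    | zero => rfl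
    | one => rfl
    | more f h1 h2 => rw [tpow, Q227.KM.tpow, h1, h2]
  have hatt : ∀ (k : Type) [Field k] (U : Subgroup (GK K)) (ρ : Rep k U)
      (S : Set (HeightOneSpectrum (𝓞 K))) (a b : HeightOneSpectrum (𝓞 K) → k),
      AttachedOver ρ S a b ↔ Q227.KN.Att U ρ S a (fun v => b v * nrm k v) := by
    intro k _ U ρ S a b
    constructor
    · intro h v hv
      refine ⟨(h v hv).1, fun f σ hf hσ => ?_⟩
      have h1 := (h v hv).2 f σ hf hσ
      rw [htp] at h1
      exact h1
    · intro h v hv
      refine ⟨(h v hv).1, fun f σ hf hσ => ?_⟩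
      have h1 := (h v hv).2 f σ hf hσ
      rw [htp]
      exact h1
  refine ⟨?_, ?_⟩
  · intro h2 k _ _ _ _ _ _ S a b δ hS hδ hall
    obtain ⟨R, h1, h3, h4⟩ := Q227.KN.pos (k := k) N hN hnc h2 hS a (fun v => b v * nrm k v)
      δ hδ.1 hδ.2 (fun U hU hUt => by
        obtain ⟨ρ, h5, h6, h7⟩ := hall U hU hUt
        exact ⟨ρ, h5, h6, (hatt k U ρ S a b).1 h7⟩)
    refine ⟨R, ⟨h1, h3, fun v hv => ⟨(h4 v hv).1, fun σ hσ => ?_⟩⟩, fun U hU ρ hρ => ?_⟩
    · obtain ⟨h5, h6⟩ := (h4 v hv).2 σ hσ
      rw [Q227.KM.charpoly_two, h5, h6]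
    · have h5 := Q227.KN.restr (c := fun v => b v * nrm k v) hN hU hS R h1 h3
        (fun v hv σ hσ => ((h4 v hv).2 σ hσ).1) ρ hρ.1 hρ.2.1 ((hatt k U ρ S a b).1 hρ.2.2)
      refine ⟨h5, fun W hW D => ?_⟩
      rintro ⟨V, hV, hVo, hVW⟩
      exact ⟨V, hVo, Q227.CD.Z.potential h5 W hW (D ⊓ V) hV hVW⟩
  · rintro ⟨h2, x, y, hxy⟩ k _ _ _ _ _ S a b R₀ hS hSN ⟨hc, hirr, hR₀⟩ hsc
    have hco : ∀ (R : RepK K k) (v : HeightOneSpectrum (𝓞 K))
        (a b : HeightOneSpectrum (𝓞 K) → k), AttachedAt R v a b → ∀ σ, IsFrob v σ →
        LinearMap.trace k _ (R σ) = a v ∧ LinearMap.det (R σ) = b v * nrm k v := by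
      intro R v a b h σ hσ
      have h8 := h.2 σ hσ
      rw [Q227.KM.charpoly_two] at h8
      constructor
      · have h9 := congrArg (fun p : Polynomial k => p.coeff 1) h8
        simpa [Polynomial.coeff_X, Polynomial.coeff_one, Polynomial.coeff_C] using h9
      · have h9 := congrArg (fun p : Polynomial k => p.coeff 0) h8
        simpa using h9
    obtain ⟨e, h3, h4⟩ := Q227.KN.neg (k := k) N hN hnc h2 hxy hS hSN a
      (fun v => b v * nrm k v) R₀ hc hirr hsc
      (fun v hv => ⟨(hR₀ v hv).1, hco R₀ v a b (hR₀ v hv)⟩)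
    refine ⟨e, fun U hU hUt => ?_, ?_⟩
    · obtain ⟨ρ, h5, h6, h7⟩ := h3 U hU hUt
      refine ⟨ρ, h5, ?_, (hatt k U ρ S _ b).2 h7⟩
      have h8 : resTo hU ρ = resK N R₀ := MonoidHom.ext fun ν => h6 ν
      rw [h8]
      exact hirr
    · rintro ⟨R, h5, h6, h7⟩
      exact h4 ⟨R, h5, h6, fun v hv σ hσ => (hco R v _ b (h7 v hv) σ hσ).1⟩

end Pool.Agent.Results.MP_976e2b_nt.AllSubextensions
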