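import Pool.Agent.Q227.CD.Z6

/-!
# Representations attached to weight two eigenclasses exist over `K` if they exist over extensions of
coprime degrees

Extensions `F` of `K` are given by the open subgroups `U = Gal(K̄/F)`, `[F : K]` is the index of `U`;
they are contained in the field `L` of the open normal subgroup `N`.  `a v`, `b v` are the values of
`θ` on `T_v`, `S_v`, for `v` outside a finite set `S`; the eigenvalues of the base change of `θ` to `F`
at a place of `F` of residue degree `f` over `v` are the `f`-th powers of the roots of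
`X ^ 2 - a v X + b v N(v)`.  The coefficients `k` are a topological field of characteristic zero, such
as a completion `F_{θ,λ}`.
-/

set_option autoImplicit false

namespace Pool.Agent.Results.MP_976e2b_nt.CoprimeDegrees

open NumberField IsDedekindDomain Pool.Agent.W401.Cheb

variable {K : Type} [Field K] [NumberField K] {k : Type} [Field k]

/-- two-dimensional representations of the subgroup `U` -/
abbrev Rep (k : Type) [Field k] (U : Subgroup (GK K)) : Type := Representation k U (Fin 2 → k)

/-- two-dimensional representations of the absolute Galois group of `K` -/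
abbrev RepK (K : Type) [Field K] [NumberField K] (k : Type) [Field k] : Type :=
  Representation k (GK K) (Fin 2 → k)

/-- the norm of `v`, as an element of `k` -/
noncomputable def nrm (k : Type) [Field k] (v : HeightOneSpectrum (𝓞 K)) : k :=
  ((Ideal.absNorm v.asIdeal : ℕ) : k)

/-- the sum of the `f`-th powers of the roots of `X ^ 2 - a X + c` -/
def tpow (a c : k) : ℕ → k
  | 0 => 2
  | 1 => a
  | (f + 2) => a * tpow a c (f + 1) - c * tpow a c f

/-- `σ` acts on the residue field of a maximal ideal `Q` above `v` of the ring of all algebraic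
integers as `x ↦ x ^ (N(v) ^ f)` -/
def IsFrobPow (v : HeightOneSpectrum (𝓞 K)) (f : ℕ) (σ : GK K) : Prop :=
  ∃ Q : Ideal (𝓞 (AlgebraicClosure K)), Q.IsMaximal ∧
    Q.comap (algebraMap (𝓞 K) (𝓞 (AlgebraicClosure K))) = v.asIdeal ∧
    ∀ x : 𝓞 (AlgebraicClosure K), σ • x - x ^ (Ideal.absNorm v.asIdeal) ^ f ∈ Q

/-- `ρ` is attached to the base change of `θ` to `F`: it is unramified at the places of `F` above
the `v` outside `S`, and the trace and the determinant of Frobenius at such a place of residue degree
`f` are those of the `f`-th powers of the roots of `X ^ 2 - a v X + b v N(v)` -/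
def AttachedOver {U : Subgroup (GK K)} (ρ : Rep k U) (S : Set (HeightOneSpectrum (𝓞 K)))
    (a b : HeightOneSpectrum (𝓞 K) → k) : Prop :=
  ∀ v ∉ S, (∀ σ : U, IsInert v (σ : GK K) → ρ σ = 1) ∧ ∀ (f : ℕ) (σ : U), 0 < f →
    IsFrobPow v f (σ : GK K) → LinearMap.trace k _ (ρ σ) = tpow (a v) (b v * nrm k v) f ∧
      LinearMap.det (ρ σ) = (b v * nrm k v) ^ f

/-- the representations `ρ i` over the `F_i` are continuous, semisimple, and attached to `θ` -/
def Given [TopologicalSpace k] {ι : Type} {U : ι → Subgroup (GK K)} (ρ : ∀ i, Rep k (U i))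
    (S : Set (HeightOneSpectrum (𝓞 K))) (a b : HeightOneSpectrum (𝓞 K) → k) : Prop :=
  ∀ i, (∀ x, Continuous fun σ => ρ i σ x) ∧ (ρ i).IsSemisimpleRepresentation ∧
    AttachedOver (ρ i) S a b

/-- some `v` outside `S` with a Frobenius element in `Gal(K̄/L)` (for example, one which splits
completely in `L`) has two different eigenvalues -/
def Distinct (N : Subgroup (GK K)) (S : Set (HeightOneSpectrum (𝓞 K)))
    (a b : HeightOneSpectrum (𝓞 K) → k) : Prop :=
  ∃ v ∉ S, (∃ σ ∈ N, IsFrob v σ) ∧ a v ^ 2 ≠ 4 * (b v * nrm k v)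

/-- the restriction of `R` to `U = Gal(K̄/F)` is isomorphic to `ρ` -/
def RestrictsTo (R : RepK K k) {U : Subgroup (GK K)} (ρ : Rep k U) : Prop :=
  Nonempty (Representation.Equiv (R.comp U.subtype : Rep k U) ρ)

/-- the ratio of the roots of `X ^ 2 - a X + c` is a root of unity of order dividing `m` which is not
a prime power -/
def Exceptional (a c : k) (m : ℕ) : Prop :=
  ∃ ζ : AlgebraicClosure k, ζ ^ m = 1 ∧ (∀ q e : ℕ, q.Prime → ζ ^ q ^ e ≠ 1) ∧
    algebraMap k (AlgebraicClosure k) a ^ 2 = (2 + ζ + ζ⁻¹) * algebraMap k (AlgebraicClosure k) c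

/-- `R` is unramified outside `S`, the determinant of Frobenius at every `v` outside `S` is
`b v N(v)`, and its trace is `a v` unless `v` is exceptional and has no place of degree one in any
`F_i` -/
def LocalConditions (N : Subgroup (GK K)) {ι : Type} (U : ι → Subgroup (GK K))
    (S : Set (HeightOneSpectrum (𝓞 K))) (a b : HeightOneSpectrum (𝓞 K) → k) (R : RepK K k) :
    Prop :=
  ∀ v ∉ S, (∀ σ, IsInert v σ → R σ = 1) ∧ ∀ σ, IsFrob v σ →
    LinearMap.det (R σ) = b v * nrm k v ∧
    (((∃ i, ∃ σ ∈ U i, IsFrob v σ) ∨ ¬ Exceptional (a v) (b v * nrm k v) N.index) →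
      LinearMap.trace k _ (R σ) = a v)

/-- a property of representations of subgroups depends only on the isomorphism class -/
def Invariant (W : ∀ H : Subgroup (GK K), Rep k H → Prop) : Prop :=
  ∀ H r r', Nonempty (Representation.Equiv r r') → W H r → W H r'

/-- `ρ` has potentially the property `W` on `D`, a decomposition group: it holds on the
intersection of `D` and an open subgroup -/
def Potentially (W : ∀ H : Subgroup (GK K), Rep k H → Prop) (D : Subgroup (GK K))
    {U : Subgroup (GK K)} (ρ : Rep k U) : Prop :=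
  ∃ (V : Subgroup (GK K)) (hV : D ⊓ V ≤ U), IsOpen (V : Set (GK K)) ∧
    W (D ⊓ V) (ρ.comp (Subgroup.inclusion hV))

/-- the same for a representation over `K` -/
def PotentiallyK (W : ∀ H : Subgroup (GK K), Rep k H → Prop) (D : Subgroup (GK K))
    (R : RepK K k) : Prop :=
  ∃ V : Subgroup (GK K), IsOpen (V : Set (GK K)) ∧ W (D ⊓ V) (R.comp (D ⊓ V).subtype)

/-- `R` is the common extension of the `ρ i` -/
def Extends {ι : Type} {U : ι → Subgroup (GK K)} (ρ : ∀ i, Rep k (U i)) (R : RepK K k) : Prop :=
  (∀ i, RestrictsTo R (ρ i)) ∧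
    ∀ R' : RepK K k, (∀ i, RestrictsTo R' (ρ i)) → Nonempty (Representation.Equiv R' R)

/-- the values `a v`, `b v` lie in the number field `E` and the `b v` are roots of unity of order
dividing `h` (as for the values of `θ`) -/
def Algebraic {E : Type} [Field E] (j : E →+* k) (h : ℕ) (S : Set (HeightOneSpectrum (𝓞 K)))
    (a b : HeightOneSpectrum (𝓞 K) → k) (a' b' : HeightOneSpectrum (𝓞 K) → E) : Prop :=
  ∀ v ∉ S, a v = j (a' v) ∧ b v = j (b' v) ∧ b' v ^ h = 1

/-- Let `F_i` be (not necessarily Galois) extensions of `K` contained in a finite Galois extension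
`L`, such that the greatest common divisor of their degrees is `1`, and `ρ_i` semisimple
representations over `F_i`, attached to the base changes of `θ`.  **(1)** There is a semisimple
representation `R` over `K` whose restriction to every `F_i` is `ρ_i`; it is unique, and irreducible
if some `ρ_i` is.  **(2)** It is unramified outside `S`, and for every `v` outside `S` the
determinant of Frobenius is `b v N(v)`; the trace is `a v`, except possibly if the ratio of the roots
of `X ^ 2 - a v X + b v N(v)` is a root of unity of order dividing `[L : K]` which is not a prime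
power, and no `F_i` has a place of degree one above `v`.  **(3)** Every property which `ρ_i` has
potentially at a decomposition group, such as weight two, holds potentially for `R`.  **(4)** If the
`a v`, `b v` lie in a number field and the `b v` are roots of unity of bounded order, there are only
finitely many exceptional `v` whose norm is not a square. -/
theorem result (K : Type) [Field K] [NumberField K] (k : Type) [Field k] [CharZero k]
    [TopologicalSpace k] [IsTopologicalRing k] [T2Space k]
    (N : Subgroup (GK K)) [N.Normal] (hN : IsOpen (N : Set (GK K)))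
    (ι : Type) [Nonempty ι] (U : ι → Subgroup (GK K)) (hU : ∀ i, N ≤ U i)
    (hgcd : ∀ d, (∀ i, d ∣ (U i).index) → d = 1)
    (S : Set (HeightOneSpectrum (𝓞 K))) (hS : S.Finite) (a b : HeightOneSpectrum (𝓞 K) → k)
    (hab : Distinct N S a b) (ρ : ∀ i, Rep k (U i)) (hρ : Given ρ S a b) :
    (∃ R : RepK K k, (∀ x, Continuous fun σ => R σ x) ∧ R.IsSemisimpleRepresentation ∧
      Extends ρ R ∧ ((∃ i, (ρ i).IsIrreducible) → R.IsIrreducible) ∧
      LocalConditions N U S a b R ∧
      ∀ W : (H : Subgroup (GK K)) → Rep k H → Prop, Invariant W → ∀ D : Subgroup (GK K),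
        (∃ i, Potentially W D (ρ i)) → PotentiallyK W D R) ∧
    ∀ (E : Type) [Field E] [NumberField E] (j : E →+* k) (h : ℕ)
      (a' b' : HeightOneSpectrum (𝓞 K) → E), 0 < h → Algebraic j h S a b a' b' →
      {v | v ∉ S ∧ ¬ IsSquare (Ideal.absNorm v.asIdeal) ∧
        Exceptional (a v) (b v * nrm k v) N.index}.Finite := by
  have hind : ∀ q : ℕ, q.Prime → ∃ i, ¬ q ∣ (U i).index := by
    intro q hq
    by_contra hne
    have h1 : ∀ i, q ∣ (U i).index := by
      intro i
      by_contra h2
      exact hne ⟨i, h2⟩
    exact hq.one_lt.ne' (hgcd q h1)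
  have htp : ∀ (x y : k) (f : ℕ), tpow x y f = Q227.CD.Z.tpow x y f := by
    intro x y f
    induction f using Nat.twoStepInduction with
    | zero => rfl
    | one => rfl
    | more f h1 h2 => rw [tpow, Q227.CD.Z.tpow, h1, h2]
  haveI : N.FiniteIndex := Q227.CD.finiteIndex_of_open hN
  refine ⟨?_, fun E _ _ j h a' b' hh hE => ?_⟩
  · obtain ⟨R, h1, h2, h3, h4, h5⟩ := Q227.CD.Z.main2 (a := a) (c := fun v => b v * nrm k v)
      (ρ := ρ) hS hN hU hind hab (fun i => (hρ i).1) (fun i => (hρ i).2.1) (fun i v hv =>
        ⟨((hρ i).2.2 v hv).1, fun f σ hf hσ => by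
          have h6 := ((hρ i).2.2 v hv).2 f σ hf hσ
          rw [htp] at h6
          exact h6⟩)
    refine ⟨R, h1, h2, ⟨h3, h4⟩, ?_, h5, fun W hW D => ?_⟩
    · rintro ⟨i, hi⟩
      exact Q227.CD.Z.irr_of_restr (h3 i) hi
    · rintro ⟨i, V, hV, hVo, hVW⟩
      exact ⟨V, hVo, Q227.CD.Z.potential (h3 i) W hW (D ⊓ V) hV hVW⟩
  · refine (Q227.CD.Z.exceptional_finite (K := K) j (m := N.index) (h := h)
      (Nat.pos_of_ne_zero Subgroup.FiniteIndex.index_ne_zero) hh a' b' S
      (fun v hv => (hE v hv).2.2)).subset ?_
    rintro v ⟨hv, hsq, hex⟩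
    refine ⟨hv, hsq, ?_⟩
    rw [(hE v hv).1, (hE v hv).2.1] at hex
    exact hex

end Pool.Agent.Results.MP_976e2b_nt.CoprimeDegrees
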