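import Pool.Agent.Q227.KM.H
import Pool.Agent.Q227.CD.Z6

/-!
# Representations attached to weight two eigenclasses: extensions of odd degree

Extensions `F_i` of `K` are given by the open subgroups `U i = Gal(K̄/F_i)`; they are contained in the
finite Galois extension `L` of `K` with `N = Gal(K̄/L)`.  `a v`, `b v` are the values of `θ` on `T_v`,
`S_v`, for `v` outside a finite set `S`, and `δ` is the character of `Gal(K̄/K)` with
`δ(Frob_v) = b v N(v)`, which class field theory attaches to the central character of `θ`.  The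
eigenvalues of the base change of `θ` to `F_i` at a place of `F_i` of residue degree `f` over `v` are
the `f`-th powers of the roots of `X ^ 2 - a v X + b v N(v)`.  The coefficients `k` are any topological
field of characteristic zero, such as a completion `F_{θ,λ}`.
-/

set_option autoImplicit false

namespace Pool.Agent.Results.MP_976e2b_nt.OddDegree

open NumberField IsDedekindDomain Pool.Agent.W401.Cheb

variable {K : Type} [Field K] [NumberField K] {k : Type} [Field k]

/-- two-dimensional representations of the subgroup `U` -/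
abbrev Rep (k : Type) [Field k] (U : Subgroup (GK K)) : Type := Representation k U (Fin 2 → k)

/-- two-dimensional representations of the absolute Galois group of `K` -/
abbrev RepK (K : Type) [Field K] [NumberField K] (k : Type) [Field k] : Type :=
  Representation k (GK K) (Fin 2 → k)

/-- the norm of `v`, as an element of `k` -/
noncomputable def nrm (k : Type) [Field k] (v : HeightOneSpectrum (𝓞 K)) : k :=
  ((Ideal.absNorm v.asIdeal : ℕ) : k)

/-- the sum of the `f`-th powers of the roots of `X ^ 2 - a X + c` -/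
def tpow (a c : k) : ℕ → k
  | 0 => 2
  | 1 => a
  | (f + 2) => a * tpow a c (f + 1) - c * tpow a c f

/-- `σ` acts on the residue field of a maximal ideal `Q` above `v` of the ring of all algebraic
integers as `x ↦ x ^ (N(v) ^ f)` -/
def IsFrobPow (v : HeightOneSpectrum (𝓞 K)) (f : ℕ) (σ : GK K) : Prop :=
  ∃ Q : Ideal (𝓞 (AlgebraicClosure K)), Q.IsMaximal ∧
    Q.comap (algebraMap (𝓞 K) (𝓞 (AlgebraicClosure K))) = v.asIdeal ∧
    ∀ x : 𝓞 (AlgebraicClosure K), σ • x - x ^ (Ideal.absNorm v.asIdeal) ^ f ∈ Q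

/-- `ρ` is attached to the base change of `θ` to `F`: it is unramified at the places of `F` above
the `v` outside `S`, and the trace and the determinant of Frobenius at such a place of residue degree
`f` are those of the `f`-th powers of the roots of `X ^ 2 - a v X + b v N(v)` -/
def AttachedOver {U : Subgroup (GK K)} (ρ : Rep k U) (S : Set (HeightOneSpectrum (𝓞 K)))
    (a b : HeightOneSpectrum (𝓞 K) → k) : Prop :=
  ∀ v ∉ S, (∀ σ : U, IsInert v (σ : GK K) → ρ σ = 1) ∧ ∀ (f : ℕ) (σ : U), 0 < f →
    IsFrobPow v f (σ : GK K) → LinearMap.trace k _ (ρ σ) = tpow (a v) (b v * nrm k v) f ∧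
      LinearMap.det (ρ σ) = (b v * nrm k v) ^ f

/-- at `v`, the representation `R` is attached to `θ`: it is unramified, and the characteristic
polynomial of Frobenius is `X ^ 2 - a v X + b v N(v)` -/
def AttachedAt (R : RepK K k) (v : HeightOneSpectrum (𝓞 K)) (a b : HeightOneSpectrum (𝓞 K) → k) :
    Prop :=
  (∀ σ, IsInert v σ → R σ = 1) ∧ ∀ σ, IsFrob v σ →
    (R σ).charpoly = Polynomial.X ^ 2 - Polynomial.C (a v) * Polynomial.X +
      Polynomial.C (b v * nrm k v)

/-- `δ` is a continuous character with `δ(Frob_v) = b v N(v)` for all `v` outside `S` -/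
def IsDeterminant [TopologicalSpace k] (δ : GK K →* kˣ) (S : Set (HeightOneSpectrum (𝓞 K)))
    (b : HeightOneSpectrum (𝓞 K) → k) : Prop :=
  (Continuous fun σ => (δ σ : k)) ∧ ∀ v ∉ S, ∀ σ, IsFrob v σ → (δ σ : k) = b v * nrm k v

/-- the determinant of `R` is `δ` -/
def HasDet (R : RepK K k) (δ : GK K →* kˣ) : Prop := ∀ σ, LinearMap.det (R σ) = (δ σ : k)

/-- the restriction from `F` to `L` -/
noncomputable def resTo {N U : Subgroup (GK K)} (h : N ≤ U) (ρ : Rep k U) : Rep k N :=
  MonoidHom.comp ρ (Subgroup.inclusion h)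

/-- the representation is absolutely irreducible: it is irreducible, and only the scalars commute
with it -/
def AbsIrreducible {N : Subgroup (GK K)} (ρ : Rep k N) : Prop :=
  ρ.IsIrreducible ∧ ∀ T : (Fin 2 → k) →ₗ[k] (Fin 2 → k), (∀ x, T ∘ₗ ρ x = ρ x ∘ₗ T) →
    ∃ c : k, T = c • LinearMap.id

/-- `ρ` is a continuous representation over `F`, absolutely irreducible over `L` and attached to the
base change of `θ` -/
def Given [TopologicalSpace k] {N U : Subgroup (GK K)} (h : N ≤ U) (ρ : Rep k U)
    (S : Set (HeightOneSpectrum (𝓞 K))) (a b : HeightOneSpectrum (𝓞 K) → k) : Prop :=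
  (∀ x, Continuous fun σ => ρ σ x) ∧ AbsIrreducible (resTo h ρ) ∧ AttachedOver ρ S a b

/-- the restriction of `R` to `U = Gal(K̄/F)` is isomorphic to `ρ` -/
def RestrictsTo (R : RepK K k) {U : Subgroup (GK K)} (ρ : Rep k U) : Prop :=
  Nonempty (Representation.Equiv (R.comp U.subtype : Rep k U) ρ)

/-- a property of representations of subgroups depends only on the isomorphism class -/
def Invariant (W : ∀ H : Subgroup (GK K), Rep k H → Prop) : Prop :=
  ∀ H r r', Nonempty (Representation.Equiv r r') → W H r → W H r'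

/-- `ρ` has potentially the property `W` on `D`, a decomposition group: it holds on the
intersection of `D` and an open subgroup -/
def Potentially (W : ∀ H : Subgroup (GK K), Rep k H → Prop) (D : Subgroup (GK K))
    {U : Subgroup (GK K)} (ρ : Rep k U) : Prop :=
  ∃ (V : Subgroup (GK K)) (hV : D ⊓ V ≤ U), IsOpen (V : Set (GK K)) ∧
    W (D ⊓ V) (ρ.comp (Subgroup.inclusion hV))

/-- the same for a representation over `K` -/
def PotentiallyK (W : ∀ H : Subgroup (GK K), Rep k H → Prop) (D : Subgroup (GK K))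
    (R : RepK K k) : Prop :=
  ∃ V : Subgroup (GK K), IsOpen (V : Set (GK K)) ∧ W (D ⊓ V) (R.comp (D ⊓ V).subtype)

/-- `v` is unramified in `L`, and some `F_i` has a place of degree one above `v` -/
def HasDegreeOne (N : Subgroup (GK K)) {ι : Type} (U : ι → Subgroup (GK K))
    (v : HeightOneSpectrum (𝓞 K)) : Prop :=
  (∀ σ, IsInert v σ → σ ∈ N) ∧ ∃ i, ∃ σ ∈ U i, IsFrob v σ

/-- Let `L` be a finite Galois extension of `K` of odd degree, and `F_i`, one or more, extensions of
`K` contained in `L`.  Let `ρ_i` be representations over `F_i`, absolutely irreducible over `L`,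
attached to the base changes of `θ`, whose determinant over `K` is given by the character `δ`.
**(1)** There is a unique representation `R` over `K` with determinant `δ` whose restrictions are the
`ρ_i`; it is determined by each of them.  **(2)** It is attached to `θ` at every `v` outside `S` which
is unramified in `L` and such that some `F_i` has a place of degree one above `v`.  **(3)** If `L` is
not cyclic over `K` and all fields `F ≠ K` contained in `L` occur among the `F_i`, then it is attached
to `θ` at every `v` outside `S`.  **(4)** Every property which some `ρ_i` has potentially at a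
decomposition group, such as weight two, holds potentially for `R`. -/
theorem result (K : Type) [Field K] [NumberField K] (k : Type) [Field k] [CharZero k]
    [TopologicalSpace k] [IsTopologicalRing k] [T2Space k]
    (N : Subgroup (GK K)) [N.Normal] (hN : IsOpen (N : Set (GK K))) (hodd : Odd N.index)
    (ι : Type) [Nonempty ι] (U : ι → Subgroup (GK K)) (hU : ∀ i, N ≤ U i)
    (S : Set (HeightOneSpectrum (𝓞 K))) (hS : S.Finite)
    (a b : HeightOneSpectrum (𝓞 K) → k) (δ : GK K →* kˣ) (hδ : IsDeterminant δ S b)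
    (ρ : ∀ i, Rep k (U i)) (hρ : ∀ i, Given (hU i) (ρ i) S a b) :
    ∃ R : RepK K k, (∀ x, Continuous fun σ => R σ x) ∧ HasDet R δ ∧
      (∀ i, RestrictsTo R (ρ i)) ∧
      (∀ R' : RepK K k, HasDet R' δ → (∃ i, RestrictsTo R' (ρ i)) →
        Nonempty (Representation.Equiv R' R)) ∧
      (∀ v ∉ S, HasDegreeOne N U v → AttachedAt R v a b) ∧
      ((¬ IsCyclic (GK K ⧸ N) ∧ ∀ V : Subgroup (GK K), N ≤ V → V ≠ ⊤ → ∃ i, U i = V) →
        ∀ v ∉ S, AttachedAt R v a b) ∧
      ∀ W : (H : Subgroup (GK K)) → Rep k H → Prop, Invariant W → ∀ D : Subgroup (GK K),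
        (∃ i, Potentially W D (ρ i)) → PotentiallyK W D R := by
  obtain ⟨R, h1, h2, h3, h4, h5⟩ := Q227.KM.family_nt (K := K) (k := k) (n := 2) two_pos N hN
    (Nat.coprime_two_right.2 hodd) U hU hS
    (fun v => Polynomial.X ^ 2 - Polynomial.C (a v) * Polynomial.X +
      Polynomial.C (b v * nrm k v)) δ hδ.1 (fun v hv σ hσ => by
      rw [hδ.2 v hv σ hσ]
      simp) ρ (fun i => (hρ i).1) (fun i => (hρ i).2.1.1) (fun i => (hρ i).2.1.2)
    (fun i v hv => ((hρ i).2.2 v hv).1) (fun i v hv σ hσ => by
      obtain ⟨h6, h7⟩ := ((hρ i).2.2 v hv).2 1 σ one_pos (Q227.CD.isFrobPow_one.2 hσ)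
      rw [Q227.KM.charpoly_two, h6, h7, pow_one]
      rfl)
  refine ⟨R, h1, h2, h3, h4, ?_, ?_, fun W hW D => ?_⟩
  · rintro v hv ⟨hI, i, σ, hσ, hσv⟩
    obtain ⟨h6, h7⟩ := h5 v hv
    exact ⟨fun τ hτ => h6 τ hτ ⟨i, hU i (hI τ hτ)⟩,
      h7 (fun τ hτ => ⟨i, hU i (hI τ hτ)⟩) ⟨σ, hσv, i, hσ⟩⟩
  · rintro ⟨hnc, hall⟩ v hv
    obtain ⟨h6, h7⟩ := h5 v hv
    have h8 : ∀ σ : GK K, ∃ i, σ ∈ U i := by
      intro σ
      obtain ⟨V, hV, hVt, hσ⟩ := Q227.CD.proper_of_notcyclic N hnc σ
      obtain ⟨i, rfl⟩ := hall V hV hVt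
      exact ⟨i, hσ⟩
    obtain ⟨σ₀, hσ₀⟩ := (Pool.Agent.W401.Frob.main K).1 v
    exact ⟨fun τ hτ => h6 τ hτ (h8 τ), h7 (fun τ hτ => h8 τ) ⟨σ₀, hσ₀, h8 σ₀⟩⟩
  · rintro ⟨i, V, hV, hVo, hVW⟩
    exact ⟨V, hVo, Q227.CD.Z.potential (h3 i) W hW (D ⊓ V) hV hVW⟩

end Pool.Agent.Results.MP_976e2b_nt.OddDegree
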