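import Pool.Agent.Q227.KM.C2
import Pool.Agent.Q227.KM.T

/-!
# Representations attached to weight two eigenclasses exist over `K` if they exist over one extension

Extensions `F` of `K` are given by the open subgroups `U = Gal(K̄/F)`; `F` is contained in the finite
Galois extension `L` of `K` with `N = Gal(K̄/L)`.  `a v`, `b v` are the values of `θ` on `T_v`, `S_v`,
for `v` outside a finite set `S`, and `δ` is the character of `Gal(K̄/K)` with
`δ(Frob_v) = b v N(v)`, which class field theory attaches to the central character of `θ`.  The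
eigenvalues of the base change of `θ` to `F` at a place of `F` of residue degree `f` over `v` are the
`f`-th powers of the roots of `X ^ 2 - a v X + b v N(v)`.  The coefficients `k` are a topological
field of characteristic zero, such as a completion `F_{θ,λ}`.
-/

set_option autoImplicit false

namespace Pool.Agent.Results.MP_976e2b_nt.OneExtension

open NumberField IsDedekindDomain Pool.Agent.W401.Cheb

variable {K : Type} [Field K] [NumberField K] {k : Type} [Field k]

/-- two-dimensional representations of the subgroup `U` -/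
abbrev Rep (k : Type) [Field k] (U : Subgroup (GK K)) : Type := Representation k U (Fin 2 → k)

/-- two-dimensional representations of the absolute Galois group of `K` -/
abbrev RepK (K : Type) [Field K] [NumberField K] (k : Type) [Field k] : Type :=
  Representation k (GK K) (Fin 2 → k)

/-- the norm of `v`, as an element of `k` -/
noncomputable def nrm (k : Type) [Field k] (v : HeightOneSpectrum (𝓞 K)) : k :=
  ((Ideal.absNorm v.asIdeal : ℕ) : k)

/-- the sum of the `f`-th powers of the roots of `X ^ 2 - a X + c` -/
def tpow (a c : k) : ℕ → k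
  | 0 => 2
  | 1 => a
  | (f + 2) => a * tpow a c (f + 1) - c * tpow a c f

/-- `σ` acts on the residue field of a maximal ideal `Q` above `v` of the ring of all algebraic
integers as `x ↦ x ^ (N(v) ^ f)` -/
def IsFrobPow (v : HeightOneSpectrum (𝓞 K)) (f : ℕ) (σ : GK K) : Prop :=
  ∃ Q : Ideal (𝓞 (AlgebraicClosure K)), Q.IsMaximal ∧
    Q.comap (algebraMap (𝓞 K) (𝓞 (AlgebraicClosure K))) = v.asIdeal ∧
    ∀ x : 𝓞 (AlgebraicClosure K), σ • x - x ^ (Ideal.absNorm v.asIdeal) ^ f ∈ Q

/-- `ρ` is attached to the base change of `θ` to `F`: it is unramified at the places of `F` above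
the `v` outside `S`, and the trace and the determinant of Frobenius at such a place of residue degree
`f` are those of the `f`-th powers of the roots of `X ^ 2 - a v X + b v N(v)` -/
def AttachedOver {U : Subgroup (GK K)} (ρ : Rep k U) (S : Set (HeightOneSpectrum (𝓞 K)))
    (a b : HeightOneSpectrum (𝓞 K) → k) : Prop :=
  ∀ v ∉ S, (∀ σ : U, IsInert v (σ : GK K) → ρ σ = 1) ∧ ∀ (f : ℕ) (σ : U), 0 < f →
    IsFrobPow v f (σ : GK K) → LinearMap.trace k _ (ρ σ) = tpow (a v) (b v * nrm k v) f ∧
      LinearMap.det (ρ σ) = (b v * nrm k v) ^ f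

/-- `R` is attached to `θ`: it is unramified outside `S`, and at every `v` outside `S` the
characteristic polynomial of Frobenius is `X ^ 2 - a v X + b v N(v)` -/
def Attached (R : RepK K k) (S : Set (HeightOneSpectrum (𝓞 K)))
    (a b : HeightOneSpectrum (𝓞 K) → k) : Prop :=
  ∀ v ∉ S, (∀ σ, IsInert v σ → R σ = 1) ∧ ∀ σ, IsFrob v σ →
    (R σ).charpoly = Polynomial.X ^ 2 - Polynomial.C (a v) * Polynomial.X +
      Polynomial.C (b v * nrm k v)

/-- `δ` is a continuous character with `δ(Frob_v) = b v N(v)` for all `v` outside `S` -/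
def IsDeterminant [TopologicalSpace k] (δ : GK K →* kˣ) (S : Set (HeightOneSpectrum (𝓞 K)))
    (b : HeightOneSpectrum (𝓞 K) → k) : Prop :=
  (Continuous fun σ => (δ σ : k)) ∧ ∀ v ∉ S, ∀ σ, IsFrob v σ → (δ σ : k) = b v * nrm k v

/-- for each prime `p` which divides `m`, the primitive `p`-th roots of unity are not contained in
`k` or a quadratic extension of `k` -/
def FewRootsOfUnity (k : Type) [Field k] (m : ℕ) : Prop :=
  ∀ p : ℕ, p.Prime → p ∣ m → ∀ ζ : AlgebraicClosure k, IsPrimitiveRoot ζ p →
    2 < (minpoly k ζ).natDegree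

/-- the restriction from `F` to `L` -/
noncomputable def resTo {N U : Subgroup (GK K)} (h : N ≤ U) (ρ : Rep k U) : Rep k N :=
  MonoidHom.comp ρ (Subgroup.inclusion h)

/-- the representation is absolutely irreducible: it is irreducible, and only the scalars commute
with it -/
def AbsIrreducible {N : Subgroup (GK K)} (ρ : Rep k N) : Prop :=
  ρ.IsIrreducible ∧ ∀ T : (Fin 2 → k) →ₗ[k] (Fin 2 → k), (∀ x, T ∘ₗ ρ x = ρ x ∘ₗ T) →
    ∃ c : k, T = c • LinearMap.id

/-- the restriction of `R` to `U = Gal(K̄/F)` is isomorphic to `ρ` -/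
def RestrictsTo (R : RepK K k) {U : Subgroup (GK K)} (ρ : Rep k U) : Prop :=
  Nonempty (Representation.Equiv (MonoidHom.comp R U.subtype : Rep k U) ρ)

/-- `ρ` has potentially the property `W` on `D`, a decomposition group: it holds on the
intersection of `D` and an open subgroup -/
def Potentially (W : ∀ H : Subgroup (GK K), Rep k H → Prop) (D : Subgroup (GK K))
    {U : Subgroup (GK K)} (ρ : Rep k U) : Prop :=
  ∃ (V : Subgroup (GK K)) (hV : D ⊓ V ≤ U), IsOpen (V : Set (GK K)) ∧
    W (D ⊓ V) (MonoidHom.comp ρ (Subgroup.inclusion hV))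

/-- the same for a representation over `K` -/
def PotentiallyK (W : ∀ H : Subgroup (GK K), Rep k H → Prop) (D : Subgroup (GK K))
    (R : RepK K k) : Prop :=
  ∃ V : Subgroup (GK K), IsOpen (V : Set (GK K)) ∧ W (D ⊓ V) (MonoidHom.comp R (D ⊓ V).subtype)

/-- Let `F` be an extension of `K` contained in a finite Galois extension `L` such that for no prime
`p` dividing `[L : K]` the primitive `p`-th roots of unity are contained in `k` or a quadratic
extension of `k`.  Let `ρ` be a representation over `F`, absolutely irreducible over `L`, attached to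
the base change of `θ`, whose determinant over `K` is given by the character `δ`.  Then `ρ` extends
to a representation `R` over `K` which is attached to `θ`: it is unramified at every `v` outside `S`,
with `X ^ 2 - a v X + b v N(v)` as characteristic polynomial of Frobenius, whether or not there are
places of `F` of degree one above `v`.  It is the only representation over `K` which restricts to
`ρ`, and has every property, such as weight two, which `ρ` has potentially at a decomposition
group. -/
theorem result (K : Type) [Field K] [NumberField K] (k : Type) [Field k] [CharZero k]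
    [TopologicalSpace k] [IsTopologicalRing k] [T2Space k]
    (N U : Subgroup (GK K)) [N.Normal] (hN : IsOpen (N : Set (GK K))) (hU : N ≤ U)
    (hk : FewRootsOfUnity k N.index) (S : Set (HeightOneSpectrum (𝓞 K))) (hS : S.Finite)
    (a b : HeightOneSpectrum (𝓞 K) → k) (δ : GK K →* kˣ) (hδ : IsDeterminant δ S b)
    (ρ : Rep k U) (hc : ∀ x, Continuous fun σ => ρ σ x) (hρ : AttachedOver ρ S a b)
    (hirr : AbsIrreducible (resTo hU ρ)) :
    ∃ R : RepK K k, (∀ u : U, R u = ρ u) ∧ (∀ x, Continuous fun σ => R σ x) ∧
      Attached R S a b ∧ (∀ R' : RepK K k, RestrictsTo R' ρ →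
        Nonempty (Representation.Equiv R' R)) ∧
      ∀ (W : (H : Subgroup (GK K)) → Rep k H → Prop) (D : Subgroup (GK K)),
        Potentially W D ρ → PotentiallyK W D R := by
  have htp : ∀ (x y : k) (f : ℕ), tpow x y f = Q227.KM.tpow x y f := by
    intro x y f
    induction f using Nat.twoStepInduction with
    | zero => rfl
    | one => rfl
    | more f h1 h2 => rw [tpow, Q227.KM.tpow, h1, h2]
  have hdeg : ∀ x y : k, (Polynomial.X ^ 2 - Polynomial.C x * Polynomial.X +
      Polynomial.C y : Polynomial k).natDegree = 2 := fun x y => by compute_degree!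
  have hmon : ∀ x y : k, (Polynomial.X ^ 2 - Polynomial.C x * Polynomial.X +
      Polynomial.C y : Polynomial k).Monic := fun x y => by monicity!
  haveI : Finite (GK K ⧸ N) := Subgroup.quotient_finite_of_isOpen _ hN
  haveI hNf : N.FiniteIndex := Subgroup.finiteIndex_of_finite_quotient
  have hcop : Nat.Coprime U.index 2 := by
    rw [Nat.coprime_comm, Nat.Prime.coprime_iff_not_dvd Nat.prime_two]
    intro h2
    have h3 := hk 2 Nat.prime_two (h2.trans (Subgroup.index_dvd_of_le hU)) (-1)
      (IsPrimitiveRoot.neg_one 0 (by norm_num))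
    have h4 : minpoly k (-1 : AlgebraicClosure k) = Polynomial.X - Polynomial.C (-1) := by
      have h5 := minpoly.eq_X_sub_C (AlgebraicClosure k) (-1 : k)
      rw [map_neg, map_one] at h5
      exact h5
    rw [h4, Polynomial.natDegree_X_sub_C] at h3
    omega
  obtain ⟨R, h1, h2, h3, h4⟩ := Q227.KM.one_ext_arith (K := K) (k := k) (n := 2) N U hN hU
    two_pos hcop hk hS (fun v => Polynomial.X ^ 2 - Polynomial.C (a v) * Polynomial.X +
      Polynomial.C (b v * nrm k v)) (fun v _ => ⟨hmon _ _, hdeg _ _⟩) δ hδ.1 (fun v hv σ hσ => by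
      rw [hδ.2 v hv σ hσ]
      simp) ρ hc hirr.1 hirr.2 (fun v hv => ⟨(hρ v hv).1, fun f σ hf hσ => by
        obtain ⟨h5, h6⟩ := (hρ v hv).2 f σ hf hσ
        rw [htp] at h5
        exact Q227.KM.aroots_two h5 h6⟩)
  refine ⟨R, h1, h2, h3, h4, ?_⟩
  rintro W D ⟨V, hV, hVo, hVW⟩
  refine ⟨V, hVo, ?_⟩
  have h5 : (MonoidHom.comp R (D ⊓ V).subtype : Rep k (D ⊓ V : Subgroup (GK K))) =
      MonoidHom.comp ρ (Subgroup.inclusion hV) := by
    refine MonoidHom.ext fun x => ?_
    exact h1 ⟨x, hV x.2⟩
  rw [h5]
  exact hVW

end Pool.Agent.Results.MP_976e2b_nt.OneExtension
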